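import Mathlib
import Pool.Agent.H194R2.Conv

/-!
# Beraha numbers as limits of real chromatic roots of plane triangulations

In fact the real chromatic roots of plane triangulations are dense in the interval `[3, 4]`.
The triangulations: replace, in a stack of quadrilaterals between two vertices `x, y`, each
quadrilateral by a long odd path from `x` to `y` whose inner vertices have degree four, and glue
two such stacks (one of them with two additional edges) along a four-cycle. With `ℓ` the length
of the paths and `m, n ~ const (q - 2) ^ ℓ` the heights of the stacks, the chromatic polynomial has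
an explicit limit, which is negative at `q₀` and positive at every `q > q₀`.
-/

set_option autoImplicit false
open Classical

namespace Pool.Agent.Results.MP_32b8b3_co.BerahaLimit

/-- `pos` is a crossing-free straight-line drawing of `G` in the plane: different vertices are
different points, no edge passes through another vertex, and two different edges meet only in a
common end vertex. -/
def IsPlaneDrawing {V : Type} (G : SimpleGraph V) (pos : V → ℝ × ℝ) : Prop :=
  Function.Injective pos ∧
  (∀ u v w : V, G.Adj u v → pos w ∈ segment ℝ (pos u) (pos v) → w = u ∨ w = v) ∧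
  (∀ u v x y : V, G.Adj u v → G.Adj x y → s(u, v) ≠ s(x, y) →
    ∀ p : ℝ × ℝ, p ∈ segment ℝ (pos u) (pos v) → p ∈ segment ℝ (pos x) (pos y) →
      ∃ w : V, p = pos w ∧ (w = u ∨ w = v) ∧ (w = x ∨ w = y))

/-- A plane triangulation: a finite simple graph with `n ≥ 3` vertices that has a crossing-free
straight-line drawing in the plane and has `3 n - 6` edges (a maximal planar graph). -/
def IsPlaneTriangulation {V : Type} [Fintype V] (G : SimpleGraph V) : Prop :=
  3 ≤ Fintype.card V ∧ (∃ pos : V → ℝ × ℝ, IsPlaneDrawing G pos) ∧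
    G.edgeSet.ncard = 3 * Fintype.card V - 6

/-- `x` is a real root of the chromatic polynomial of `G`, the polynomial whose value at every
natural number `k` is the number of proper colourings with `k` colours. -/
def IsChromaticRoot {V : Type} (G : SimpleGraph V) (x : ℝ) : Prop :=
  ∃ P : Polynomial ℝ, (∀ k : ℕ, P.eval (k : ℝ) = (Nat.card (G.Coloring (Fin k)) : ℝ)) ∧
    P.eval x = 0

/-- A root in any interval `[q0, q1]` inside `(3, 4)` with `q0` not the exceptional number
`(5 + √5) / 2`. -/
theorem between (q0 q1 : ℝ) (hq0 : 3 < q0) (h : q0 < q1) (hq1 : q1 < 4)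
    (hne : (q0 - 3) ^ 2 + (q0 - 3) ≠ 1) :
    ∃ (V : Type) (_ : Fintype V) (G : SimpleGraph V) (x : ℝ),
      IsPlaneTriangulation G ∧ IsChromaticRoot G x ∧ q0 ≤ x ∧ x ≤ q1 := by
  obtain ⟨V, _, F, pos, P, hd, hc, hcard, hec, hP, x, hx0, hx1, hx⟩ :=
    Pool.Agent.H194R2.sign_change q0 q1 hq0 h hq1 hne
  refine ⟨V, inferInstance, Pool.Agent.H194R2.gr F, x, ⟨hcard, ⟨pos, hd.inj hc, ?_, ?_⟩, ?_⟩,
    ⟨P, ?_, hx⟩, hx0, hx1⟩
  · intro u v w huv hw
    exact hd.vert hc huv hw
  · intro u v x y huv hxy hne p h1 h2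
    obtain ⟨_, t, ht, h3, h4⟩ := hxy
    exact hd.common huv ht h3 h4 hne h1 h2
  · rw [Pool.Agent.H194R2.ec_eq] at hec
    omega
  · intro k
    rw [hP k, Pool.Agent.H194R2.cs_card]

/-- The real chromatic roots of plane triangulations are dense in `[3, 4]`. -/
theorem dense (y : ℝ) (hy : y ∈ Set.Icc (3 : ℝ) 4) (ε : ℝ) (hε : 0 < ε) :
    ∃ (V : Type) (_ : Fintype V) (G : SimpleGraph V) (x : ℝ),
      IsPlaneTriangulation G ∧ IsChromaticRoot G x ∧ |x - y| < ε := by
  set a := max 3 (y - ε) with ha
  set b := min 4 (y + ε) with hb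
  have ha3 : 3 ≤ a := le_max_left _ _
  have hay : y - ε ≤ a := le_max_right _ _
  have hb4 : b ≤ 4 := min_le_left _ _
  have hby : b ≤ y + ε := min_le_right _ _
  have hab : a < b := by
    rw [ha, hb, max_lt_iff, lt_min_iff, lt_min_iff]
    exact ⟨⟨by norm_num, by linarith [hy.1]⟩, by linarith [hy.2], by linarith⟩
  have key : ∀ q0 : ℝ, a < q0 → q0 < (a + b) / 2 → (q0 - 3) ^ 2 + (q0 - 3) ≠ 1 →
      ∃ (V : Type) (_ : Fintype V) (G : SimpleGraph V) (x : ℝ),
      IsPlaneTriangulation G ∧ IsChromaticRoot G x ∧ |x - y| < ε := by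
    intro q0 h1 h2 h3
    obtain ⟨V, i, G, x, hG, hx, h4, h5⟩ := between q0 ((a + b) / 2) (by linarith) h2 (by linarith) h3
    refine ⟨V, i, G, x, hG, hx, ?_⟩
    rw [abs_lt]
    constructor <;> linarith
  by_cases h1 : (a + (b - a) / 4 - 3) ^ 2 + (a + (b - a) / 4 - 3) = 1
  · refine key (a + (b - a) / 3) (by linarith) (by linarith) ?_
    intro h2
    have h3 : (a + (b - a) / 3 - 3) ^ 2 + (a + (b - a) / 3 - 3) -
        ((a + (b - a) / 4 - 3) ^ 2 + (a + (b - a) / 4 - 3)) =
        (b - a) / 12 * (2 * (a - 3) + 7 * (b - a) / 12 + 1) := by ring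
    have h4 : 0 < (b - a) / 12 * (2 * (a - 3) + 7 * (b - a) / 12 + 1) := by
      apply mul_pos <;> linarith
    linarith
  · exact key (a + (b - a) / 4) (by linarith) (by linarith) h1

/-- Every Beraha number `B_n = 2 + 2 cos (2 π / n)` with `n ∈ {8, 9}` or `n ≥ 11` is a limit of
real chromatic roots of plane triangulations. (By the lemma `dense` above, every point of the
interval `[3, 4]` is such a limit.) -/
theorem result :
    ∀ n : ℕ, (n = 8 ∨ n = 9 ∨ 11 ≤ n) → ∀ ε : ℝ, 0 < ε →
      ∃ (V : Type) (_ : Fintype V) (G : SimpleGraph V) (x : ℝ),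
        IsPlaneTriangulation G ∧ IsChromaticRoot G x ∧
        x ∈ Set.Ioo (2 + 2 * Real.cos (2 * Real.pi / n) - ε)
          (2 + 2 * Real.cos (2 * Real.pi / n) + ε) := by
  intro n hn ε hε
  have hn8 : (8 : ℝ) ≤ n := by
    have : 8 ≤ n := by omega
    exact_mod_cast this
  have hcos1 : Real.cos (2 * Real.pi / n) ≤ 1 := Real.cos_le_one _
  have hcos2 : 1 / 2 ≤ Real.cos (2 * Real.pi / n) := by
    rw [← Real.cos_pi_div_three]
    apply Real.cos_le_cos_of_nonneg_of_le_pi
    · positivity
    · linarith [Real.pi_pos]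
    · rw [div_le_div_iff₀ (by linarith) (by norm_num)]
      nlinarith [Real.pi_pos]
  obtain ⟨V, i, G, x, hG, hx, h⟩ := dense (2 + 2 * Real.cos (2 * Real.pi / n))
    ⟨by linarith, by linarith⟩ ε hε
  refine ⟨V, i, G, x, hG, hx, ?_⟩
  rw [abs_lt] at h
  constructor <;> linarith

end Pool.Agent.Results.MP_32b8b3_co.BerahaLimit
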